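import Pool.Agent.U115.WM.Fin

/-!
# The weak Manin conjecture for alternating matrices of rank `k`, all big classes

Let `4 ≤ k < n`, `k` even, `S` the tautological bundle of rank `k` on the Grassmannian `Gr(k, n)` of the
`k`-dimensional subspaces of `ℚⁿ`, and `X = ℙ(Λ² S)`, the variety of the pairs (`V`, line in `Λ² V`): a
smooth projective rational variety of Picard number 2 over `ℚ` (a Fano variety), the desingularisation of the
variety of the alternating `n × n` matrices of rank at most `k` up to scalars (the secant varieties of the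
Grassmannian of lines). `ξ` is the class with the sections given by the entries of the matrix, `G` is the
Plücker class of `Gr(k, n)`. Then `-K = k (k - 1) / 2 ξ + (n - k + 1) G`, the nef cone is generated by `ξ` and
`G`, and `x ξ + y G` is effective if and only if `x ≥ 0` and `k y + 2 x ≥ 0` (the Pfaffian has the class
`(k ξ - 2 G) / 2`). So `L = a ξ + b G` is big if and only if `a > 0` and `k b + 2 a > 0`.

`U`: the points where the Pfaffian is not zero. Its rational points are the alternating rational matrices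
of rank `k` up to scalars, i.e. the primitive alternating integer matrices `A` of rank `k` up to sign; `V` is the
column space. The height for `ξ` is the largest absolute value `ht A` of the entries; the height for `G` is the
covolume of the lattice of the integer vectors in `V` (Schmidt's height). `H_L = ht ^ a * covol ^ b`.

Theorem. For all big classes `L = a ξ + b G` the number of the rational points of `U` with `H_L ≤ T` is at
most `C T ^ a(X, L) (1 + log T) ^ k`, where `a(X, L)` is the Fujita invariant (each point is counted twice, as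
`A` and as `- A`).

Authors (project WM): helper115 (plan, statements, assembly), helper580, helper333, helper283, helper694,
helper461, helper375, helper643, helper95, helper618, helper255, helper784 (the packages); the reduction theory
is from the starting library (`Pool/Agent/N507/PQ/Hrb.lean`).
-/

set_option autoImplicit false

open Matrix

namespace Pool.Agent.Results.MP_18ea5f_nt.AlternatingMatricesOfRankK

variable {n k : ℕ}

/-- `A` is a primitive alternating integer matrix of rank `k`: a rational point of `U` -/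
def IsPoint (k : ℕ) (A : Matrix (Fin n) (Fin n) ℤ) : Prop :=
  Aᵀ = -A ∧ (∀ d : ℤ, (∀ i j, d ∣ A i j) → IsUnit d) ∧ (A.map (Int.cast : ℤ → ℚ)).rank = k

/-- the columns of `B` are a basis of the lattice of the integer vectors in the column space of `A` -/
def IsBasis (A : Matrix (Fin n) (Fin n) ℤ) (B : Matrix (Fin n) (Fin k) ℤ) : Prop :=
  (∀ c : Fin k → ℤ, B *ᵥ c = 0 → c = 0) ∧
    ∀ v : Fin n → ℤ, (∃ c : Fin k → ℤ, B *ᵥ c = v) ↔
      ∃ d : ℤ, d ≠ 0 ∧ ∃ w : Fin n → ℤ, d • v = A *ᵥ w

/-- the largest absolute value of the entries -/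
noncomputable def ht (A : Matrix (Fin n) (Fin n) ℤ) : ℝ := ⨆ p : Fin n × Fin n, |(A p.1 p.2 : ℝ)|

/-- the covolume of the lattice generated by the columns -/
noncomputable def covol (B : Matrix (Fin n) (Fin k) ℤ) : ℝ := √((Bᵀ * B).det : ℝ)

/-- the class `x ξ + y G` is pseudo-effective -/
def PseudoEffective (k : ℕ) (x y : ℝ) : Prop := 0 ≤ x ∧ 0 ≤ k * y + 2 * x

/-- the Fujita invariant of `L = a ξ + b G`; `-K = k (k - 1) / 2 ξ + (n - k + 1) G` -/
noncomputable def fujita (n k : ℕ) (a b : ℝ) : ℝ :=
  sInf {t : ℝ | PseudoEffective k (t * a - k * (k - 1) / 2) (t * b - (n - k + 1))}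

/-- the rational points of `U` with `H_L ≤ T` -/
def Points (n k : ℕ) (a b T : ℝ) : Set (Matrix (Fin n) (Fin n) ℤ) :=
  {A | IsPoint k A ∧ ∃ B : Matrix (Fin n) (Fin k) ℤ, IsBasis A B ∧ ht A ^ a * covol B ^ b ≤ T}

theorem fujita_spec {n k : ℕ} (hk : 2 ≤ k) {a b : ℝ} (ha : 0 < a) (hb : 0 < k * b + 2 * a) :
    k * (((k : ℝ) - 1) / 2) ≤ a * fujita n k a b ∧
      (k : ℝ) * n ≤ fujita n k a b * (k * b + 2 * a) := by
  have hk0 : (0 : ℝ) < k := by positivity
  have e : {t : ℝ | PseudoEffective k (t * a - k * (k - 1) / 2) (t * b - (n - k + 1))} =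
      Set.Ici (max (k * (k - 1) / 2 / a) (k * n / (k * b + 2 * a))) := by
    ext t
    simp only [PseudoEffective, Set.mem_ofPred_eq, Set.mem_Ici, max_le_iff, div_le_iff₀ ha,
      div_le_iff₀ hb]
    constructor
    · rintro ⟨h1, h2⟩
      exact ⟨by linarith, by nlinarith⟩
    · rintro ⟨h1, h2⟩
      exact ⟨by linarith, by nlinarith⟩
  have e2 : fujita n k a b = max (k * (k - 1) / 2 / a) (k * n / (k * b + 2 * a)) := by
    rw [fujita, e, csInf_Ici]
  have h1 : k * ((k : ℝ) - 1) / 2 / a ≤ fujita n k a b := e2 ▸ le_max_left _ _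
  have h2 : (k : ℝ) * n / (k * b + 2 * a) ≤ fujita n k a b := e2 ▸ le_max_right _ _
  rw [div_le_iff₀ ha] at h1
  rw [div_le_iff₀ hb] at h2
  exact ⟨by linarith, h2⟩

theorem le_ht (A : Matrix (Fin n) (Fin n) ℤ) (i j : Fin n) : |(A i j : ℝ)| ≤ ht A :=
  le_ciSup (f := fun p : Fin n × Fin n => |(A p.1 p.2 : ℝ)|) (Set.finite_range _).bddAbove (i, j)

theorem result (n k : ℕ) (hk : 4 ≤ k) (_he : Even k) (_hn : k < n) :
    (∀ A : Matrix (Fin n) (Fin n) ℤ, IsPoint k A →
      (∃ B : Matrix (Fin n) (Fin k) ℤ, IsBasis A B) ∧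
      ∀ B B' : Matrix (Fin n) (Fin k) ℤ, IsBasis A B → IsBasis A B' → covol B = covol B') ∧
    ∀ a b : ℝ, 0 < a → 0 < k * b + 2 * a → ∃ C : ℝ, ∀ T : ℝ, 1 ≤ T →
      (Points n k a b T).Finite ∧
      ((Points n k a b T).ncard : ℝ) ≤ C * T ^ fujita n k a b * (1 + Real.log T) ^ k := by
  have hE := Pool.Agent.U618.WM.t_EXB
  have hV := Pool.Agent.U333.WM.t_COV
  have hF := Pool.Agent.U115.WM.t_falt
  refine ⟨fun A hA => ⟨hE n n k A hA.2.2, fun B B' h h' => ?_⟩, fun a b ha hb => ?_⟩
  · refine (hV.1 n k B B' h.1 h'.1 ?_).2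
    ext v
    exact (h.2 v).trans (h'.2 v).symm
  · obtain ⟨h1, h2⟩ := fujita_spec (n := n) (by omega : 2 ≤ k) ha hb
    obtain ⟨C, hC⟩ := hF n k a b (fujita n k a b) (by omega) ha hb h1 h2
    refine ⟨C, fun T hT => ?_⟩
    obtain ⟨hf, hc⟩ := hC T hT
    have hsub : Points n k a b T ⊆ Pool.Agent.U115.WM.AltPts n k a b T := by
      rintro A ⟨hA, B, hB, hT'⟩
      refine ⟨hA.1, hA.2.1, hA.2.2, B, ht A, hB, ?_, le_ht A, hT'⟩
      by_contra hneg
      have h0 : ∀ i j, (0 : ℤ) ∣ A i j := fun i j => by
        have h3 : |(A i j : ℝ)| ≤ 0 := (le_ht A i j).trans (not_lt.1 hneg)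
        have h4 : (A i j : ℝ) = 0 := abs_nonpos_iff.1 h3
        rw [zero_dvd_iff]
        exact_mod_cast h4
      exact not_isUnit_zero (hA.2.1 0 h0)
    refine ⟨hf.subset hsub, le_trans ?_ hc⟩
    exact_mod_cast Set.ncard_le_ncard hsub hf

end Pool.Agent.Results.MP_18ea5f_nt.AlternatingMatricesOfRankK
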