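import Mathlib
import Pool.Agent.U239.BI.Fin
import Pool.Agent.U239.BI.Exu
import Pool.Agent.N852.GR.Glue
import Pool.Agent.N852.GR.Lat
import Pool.Agent.N852.GR.Dim
import Pool.Agent.N852.GR.Trk
import Pool.Agent.N852.GR.Cel
import Pool.Agent.N852.GR.Cnt
import Pool.Agent.N852.GR.Rnk
import Pool.Agent.N852.GR.Pbp
import Pool.Agent.N713.GR.Bad
import Pool.Agent.N852.GR.Eps
import Pool.Agent.N852.GR.Lld

/-!
# The weak Manin conjecture for the smooth complete intersections of `k` divisors of type `(1,1)` in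
`ℙ^(N-1) × ℙ^(N-1)`, `N ≥ 3 k`, over EVERY number field, all big and nef line bundles

* `M i`, `i < k`: `N × N` matrices over the number field `F`.
* `OnX M P Q`: the point `(P, Q)` satisfies the `k` equations `x ᵀ M i y = 0`, which define `X`.
* `Smooth M`: the Jacobian criterion at the complex points of `X`, for all embeddings of `F`: the
  gradients of the `k` equations are linearly independent, that is, for no combination
  `∑ l i M i` both `(∑ l i M i) y = 0` and `x ᵀ (∑ l i M i) = 0`.
* `InU M P Q`: the `k` linear forms `x ᵀ M i` are linearly independent, and so are the `k` linear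
  forms `M i y`: a Zariski open subset `U` of `X`. It has a rational point.

`-K = (N - k, N - k)`, `Pic X = ℤ²`, and both projections of `X` have fibres of positive dimension, so
the cone of effective classes is the quadrant, the big and nef `L` are the `(l₀, l₁)` with
`l₀, l₁ > 0`, and `a(X, L) = (N - k) max (1 / l₀, 1 / l₁)`.

The starting file `BilinearCompleteIntersections` has `F = ℚ`, `N ≥ 2 k`, for `k ≥ 3` under the hypothesis
that the form `det (∑ s i M i)` has finitely many zeros. The proof follows that of the starting file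
`GrassmannianSections` (`Pool/Agent/N852/GR`: counting in lattices over `𝓞 F`, the bound for the vectors
with few conditions, the iteration), where the forms are alternating and the points are planes; here
the system is iterated together with the transposed system, and the points have balanced integral
representatives (`Pool/Agent/N752/HY/Rep2`).
-/

set_option autoImplicit false

namespace Pool.Agent.Results.MP_18ea5f_nt.BilinearOverNumberFields

open Module Matrix

variable {F : Type} [Field F] {N k : ℕ}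

/-- The pair `(P, Q)` of points lies on `X`. -/
def OnX (M : Fin k → Matrix (Fin N) (Fin N) F) (P Q : Projectivization F (Fin N → F)) : Prop :=
  ∀ i, P.rep ⬝ᵥ M i *ᵥ Q.rep = 0

/-- The Jacobian criterion for `X`. -/
def Smooth (M : Fin k → Matrix (Fin N) (Fin N) F) : Prop :=
  ∀ (σ : F →+* ℂ) (x y : Fin N → ℂ), x ≠ 0 → y ≠ 0 → (∀ i, x ⬝ᵥ (M i).map σ *ᵥ y = 0) →
    ∀ l : Fin k → ℂ, l ≠ 0 →
      (∑ i, l i • (M i).map σ) *ᵥ y ≠ 0 ∨ x ᵥ* (∑ i, l i • (M i).map σ) ≠ 0

/-- The open subset `U`. -/
def InU (M : Fin k → Matrix (Fin N) (Fin N) F) (P Q : Projectivization F (Fin N → F)) : Prop :=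
  LinearIndependent F (fun i => P.rep ᵥ* M i) ∧ LinearIndependent F (fun i => M i *ᵥ Q.rep)

section proof

open Pool.Agent.N852.GR Pool.Agent.U239.BI NumberField

variable [NumberField F]

theorem indep_smul {v : Fin k → Fin N → F} (h : LinearIndependent F v) {c : F} (hc : c ≠ 0) :
    LinearIndependent F (fun i => c • v i) := by
  have h4 := h.units_smul fun _ => Units.mk0 c hc
  convert h4 using 1
  funext i
  rfl

theorem glue {M : Fin k → Matrix (Fin N) (Fin N) F} {D : F}
    {B : Fin k → Matrix (Fin N) (Fin N) (𝓞 F)} (hD : D ≠ 0) (hB : ∀ i, cm B i = D • M i)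
    {P Q : Projectivization F (Fin N → F)} (h1 : OnX M P Q) (h2 : InU M P Q) (a b : Fin N → 𝓞 F)
    (ha : ∃ c : F, c ≠ 0 ∧ co a = c • P.rep) (hb : ∃ c : F, c ≠ 0 ∧ co b = c • Q.rep) :
    Gd (tr B) a ∧ Gd (tr (tr B)) b ∧ ∀ i, dr (tr B) a i ⬝ᵥ b = 0 := by
  obtain ⟨c, hc, hca⟩ := ha
  obtain ⟨c', hc', hcb⟩ := hb
  have hBt : ∀ i, cm (tr B) i = D • (tr M) i := by
    intro i
    have e : cm (tr B) i = (cm B i)ᵀ := rfl
    rw [e, hB i, Matrix.transpose_smul]
    rfl
  have e1 : ∀ i, co (dr (tr B) a i) = (D * c) • (P.rep ᵥ* M i) := by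
    intro i
    rw [co_dr hBt, hca, Matrix.mulVec_smul, smul_smul]
    congr 1
    exact Matrix.mulVec_transpose (M i) P.rep
  have e2 : ∀ i, co (dr B b i) = (D * c') • (M i *ᵥ Q.rep) := by
    intro i
    rw [co_dr hB, hcb, Matrix.mulVec_smul, smul_smul]
  refine ⟨?_, ?_, ?_⟩
  · unfold Gd
    simp only [e1]
    exact indep_smul h2.1 (mul_ne_zero hD hc)
  · rw [tr_tr]
    unfold Gd
    simp only [e2]
    exact indep_smul h2.2 (mul_ne_zero hD hc')
  · intro i
    have h3 : co (dr (tr B) a i) ⬝ᵥ co b = 0 := by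
      rw [e1, hcb, smul_dotProduct, dotProduct_smul, ← Matrix.dotProduct_mulVec, h1 i, smul_zero,
        smul_zero]
    have h4 : ((dr (tr B) a i ⬝ᵥ b : 𝓞 F) : F) = 0 := by
      rw [← h3]
      simp only [dotProduct, co]
      push_cast
      rfl
    exact_mod_cast h4

end proof

open Pool.Agent.N852.GR Pool.Agent.U239.BI in
/-- **The weak Manin conjecture for smooth complete intersections of type `(1,1), …, (1,1)` over
number fields.** -/
theorem result (F : Type) [Field F] [NumberField F] (k N : ℕ) (hk : 1 ≤ k) (hN : 3 * k ≤ N)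
    (M : Fin k → Matrix (Fin N) (Fin N) F) (hM : Smooth M) :
    (∃ P Q, OnX M P Q ∧ InU M P Q) ∧
    ∀ l : Fin 2 → ℝ, (∀ i, 0 < l i) → ∀ ε : ℝ, 0 < ε → ∃ C : ℝ, ∀ T : ℝ, 1 ≤ T →
      {z : Projectivization F (Fin N → F) × Projectivization F (Fin N → F) |
        OnX M z.1 z.2 ∧ InU M z.1 z.2 ∧ z.1.mulHeight ^ l 0 * z.2.mulHeight ^ l 1 ≤ T}.Finite ∧
      ({z : Projectivization F (Fin N → F) × Projectivization F (Fin N → F) |
        OnX M z.1 z.2 ∧ InU M z.1 z.2 ∧
          z.1.mulHeight ^ l 0 * z.2.mulHeight ^ l 1 ≤ T}.ncard : ℝ) ≤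
        C * T ^ (((N : ℝ) - k) * max (1 / l 0) (1 / l 1) + ε) := by
  have hkN : k ≤ N := by omega
  have hrc : RC M (N - k + 1) := smt M hM hkN
  constructor
  · obtain ⟨x, y, h1, h2, h3⟩ := exu lldP M hk (rc_mono (by omega) hrc)
    have hx : x ≠ 0 := by
      rintro rfl
      exact h2.ne_zero (⟨0, hk⟩ : Fin k) (by simp)
    have hy : y ≠ 0 := by
      rintro rfl
      exact h3.ne_zero (⟨0, hk⟩ : Fin k) (by simp)
    obtain ⟨a, ha⟩ := Projectivization.exists_smul_eq_mk_rep F x hx
    obtain ⟨b, hb⟩ := Projectivization.exists_smul_eq_mk_rep F y hy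
    have ha' : (Projectivization.mk F x hx).rep = (a : F) • x := ha.symm
    have hb' : (Projectivization.mk F y hy).rep = (b : F) • y := hb.symm
    refine ⟨Projectivization.mk F x hx, Projectivization.mk F y hy, ?_, ?_, ?_⟩
    · intro i
      rw [ha', hb', smul_dotProduct, Matrix.mulVec_smul, dotProduct_smul, h1 i, smul_zero,
        smul_zero]
    · rw [ha']
      simp only [Matrix.smul_vecMul]
      exact indep_smul h2 a.ne_zero
    · rw [hb']
      simp only [Matrix.mulVec_smul]
      exact indep_smul h3 b.ne_zero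
  intro l hl ε hε
  obtain ⟨D, B, hD, hB⟩ := clear M
  have hRC : RC (cm (tr B)) (2 * k + 1) := by
    rw [cm_tr]
    exact rc_tr (rc_smul hD hB (rc_mono (by omega) hrc))
  have hL := latP F
  have hBad := Pool.Agent.N713.GR.badP F (dimP F) (trkP F) celP (cntP F hL) (rnkP F) (pbP F)
  obtain ⟨C, hC⟩ := fin hL (tr B) hk hkN
    (fun ε hε => eng hL (dimP F) hBad epsP (tr B) hk hRC ε hε) l hl ε hε
  refine ⟨C, fun T hT => ?_⟩
  exact hC T hT _ (fun z hz => ⟨fun a b ha hb => glue hD hB hz.1 hz.2.1 a b ha hb, hz.2.2⟩)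

end Pool.Agent.Results.MP_18ea5f_nt.BilinearOverNumberFields
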