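import Pool.Agent.U115.WM.Fin

/-!
# The weak Manin conjecture for the spaces of quadrics in linear subspaces, all big classes

Let `2 ≤ k < n`, `S` the tautological bundle of rank `k` on the Grassmannian `Gr(k, n)`, and
`X = ℙ(Sym² S*)`, the variety of the pairs (`V`, quadric in `ℙ(V)`): the space of all quadrics of dimension
`k - 2` in the linear subspaces of dimension `k - 1` of `ℙ^(n-1)`, a component of the Hilbert scheme (`k = 2`: the
Hilbert scheme of pairs of points of `ℙ^(n-1)`; `k = 3`: the Hilbert scheme of conics; `k = 4`: quadric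
surfaces). It is a smooth projective rational variety of Picard number 2. `ξ` is the dual of the tautological
line bundle and `G` the Plücker class. Then `-K = k (k + 1) / 2 ξ + (n + k + 1) G`, the nef cone is generated by
`G` and `ξ + 2 G`, and `x ξ + y G` is effective if and only if `x ≥ 0` and `k y ≥ 2 x` (the discriminant has the
class `k ξ + 2 G`). So `L = a ξ + b G` is big if and only if `a > 0` and `k b > 2 a`.

`U`: the nondegenerate quadrics. Its rational points are the pairs of a primitive lattice `Λ` of rank `k` in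
`ℤⁿ` and a primitive nondegenerate integral quadratic form `f` on `Λ`, up to the sign of `f`. The height for
`ξ` is the norm of `f`, the smallest `h` with `|f v| ≤ h |v|²`; the height for `G` is the covolume of `Λ`.
`H_L = h ^ a * covol ^ b`.

Theorem. For all big classes `L = a ξ + b G` the number of the rational points of `U` with `H_L ≤ T` is at
most `C T ^ a(X, L) (1 + log T) ^ k`, where `a(X, L)` is the Fujita invariant (each point is counted twice, with
`f` and with `- f`).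

Proof: a reduced basis of the lattice, with lengths `λ_i`; at most `C ∏ λ_i ^ n / ∏_{i < j} (λ_j / λ_i)` lattices
have a basis with the lengths `λ_i`; the coefficients of `f` are at most `C h λ_i λ_j`; as `f` is
nondegenerate `1 ≤ C h λ_i λ_(k+1-i)`, and the loss from the coefficients which must vanish is at most
`∏_{i < j} (λ_j / λ_i)`.

Authors (project WM): helper115 (plan, statements, assembly), helper580, helper333, helper283, helper694,
helper461, helper375, helper643, helper95, helper618, helper255, helper784 (the packages); the reduction theory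
is from the starting library (`Pool/Agent/N507/PQ/Hrb.lean`).
-/

set_option autoImplicit false

open Matrix

namespace Pool.Agent.Results.MP_18ea5f_nt.QuadricsInSubspaces

variable {n k : ℕ}

/-- the lattice generated by the columns of `B` -/
def lattice (B : Matrix (Fin n) (Fin k) ℤ) : Set (Fin n → ℤ) := {v | ∃ c : Fin k → ℤ, B *ᵥ c = v}

/-- the columns of `B` are a basis of `Λ` -/
def IsBasis (Λ : Set (Fin n → ℤ)) (B : Matrix (Fin n) (Fin k) ℤ) : Prop :=
  (∀ c : Fin k → ℤ, B *ᵥ c = 0 → c = 0) ∧ lattice B = Λ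

/-- a rational point of `U`: a primitive lattice `Λ` of rank `k` in `ℤⁿ` (the integer vectors of a
subspace of dimension `k`) and a nondegenerate primitive integral quadratic form `f` on `Λ`, with the
coefficients `c i j`, `i ≤ j`, in a basis `B`; `f` is put equal to zero outside of `Λ` -/
def IsPoint (k : ℕ) (Λ : Set (Fin n → ℤ)) (f : (Fin n → ℤ) → ℤ) : Prop :=
  (∀ (v : Fin n → ℤ) (d : ℤ), d ≠ 0 → d • v ∈ Λ → v ∈ Λ) ∧ (∀ v, v ∉ Λ → f v = 0) ∧
    ∃ (B : Matrix (Fin n) (Fin k) ℤ) (c : Matrix (Fin k) (Fin k) ℤ), IsBasis Λ B ∧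
      (∀ i j, j < i → c i j = 0) ∧ (∀ x : Fin k → ℤ, f (B *ᵥ x) = ∑ i, ∑ j, c i j * x i * x j) ∧
      (c + cᵀ).det ≠ 0 ∧ ∀ d : ℤ, (∀ i j, d ∣ c i j) → IsUnit d

/-- the covolume of the lattice generated by the columns -/
noncomputable def covol (B : Matrix (Fin n) (Fin k) ℤ) : ℝ := √((Bᵀ * B).det : ℝ)

/-- the norm of `f` is at most `h` -/
def NormLE (Λ : Set (Fin n → ℤ)) (f : (Fin n → ℤ) → ℤ) (h : ℝ) : Prop :=
  0 < h ∧ ∀ v ∈ Λ, |(f v : ℝ)| ≤ h * ∑ l, (v l : ℝ) ^ 2

/-- the class `x ξ + y G` is pseudo-effective -/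
def PseudoEffective (k : ℕ) (x y : ℝ) : Prop := 0 ≤ x ∧ 2 * x ≤ k * y

/-- the Fujita invariant of `L = a ξ + b G`; `-K = k (k + 1) / 2 ξ + (n + k + 1) G` -/
noncomputable def fujita (n k : ℕ) (a b : ℝ) : ℝ :=
  sInf {t : ℝ | PseudoEffective k (t * a - k * (k + 1) / 2) (t * b - (n + k + 1))}

/-- the rational points of `U` with `H_L ≤ T` -/
def Points (n k : ℕ) (a b T : ℝ) : Set (Set (Fin n → ℤ) × ((Fin n → ℤ) → ℤ)) :=
  {p | IsPoint k p.1 p.2 ∧ ∃ (B : Matrix (Fin n) (Fin k) ℤ) (h : ℝ), IsBasis p.1 B ∧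
    NormLE p.1 p.2 h ∧ h ^ a * covol B ^ b ≤ T}

theorem fujita_spec {n k : ℕ} (hk : 2 ≤ k) {a b : ℝ} (ha : 0 < a) (hb : 0 < k * b - 2 * a) :
    k * (((k : ℝ) + 1) / 2) ≤ a * fujita n k a b ∧
      (k : ℝ) * n ≤ fujita n k a b * (k * b - 2 * a) := by
  have hk0 : (0 : ℝ) < k := by positivity
  have e : {t : ℝ | PseudoEffective k (t * a - k * (k + 1) / 2) (t * b - (n + k + 1))} =
      Set.Ici (max (k * (k + 1) / 2 / a) (k * n / (k * b - 2 * a))) := by
    ext t
    simp only [PseudoEffective, Set.mem_ofPred_eq, Set.mem_Ici, max_le_iff, div_le_iff₀ ha,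
      div_le_iff₀ hb]
    constructor
    · rintro ⟨h1, h2⟩
      exact ⟨by linarith, by nlinarith⟩
    · rintro ⟨h1, h2⟩
      exact ⟨by linarith, by nlinarith⟩
  have e2 : fujita n k a b = max (k * (k + 1) / 2 / a) (k * n / (k * b - 2 * a)) := by
    rw [fujita, e, csInf_Ici]
  have h1 : k * ((k : ℝ) + 1) / 2 / a ≤ fujita n k a b := e2 ▸ le_max_left _ _
  have h2 : (k : ℝ) * n / (k * b - 2 * a) ≤ fujita n k a b := e2 ▸ le_max_right _ _
  rw [div_le_iff₀ ha] at h1
  rw [div_le_iff₀ hb] at h2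
  exact ⟨by linarith, h2⟩

theorem result (n k : ℕ) (hk : 2 ≤ k) (_hn : k < n) :
    (∀ (Λ : Set (Fin n → ℤ)) (B B' : Matrix (Fin n) (Fin k) ℤ), IsBasis Λ B → IsBasis Λ B' →
      covol B = covol B') ∧
    ∀ a b : ℝ, 0 < a → 2 * a < k * b → ∃ C : ℝ, ∀ T : ℝ, 1 ≤ T →
      (Points n k a b T).Finite ∧
      ((Points n k a b T).ncard : ℝ) ≤ C * T ^ fujita n k a b * (1 + Real.log T) ^ k := by
  have hV := Pool.Agent.U333.WM.t_COV
  have hF := Pool.Agent.U115.WM.t_fqua
  refine ⟨fun Λ B B' h h' => (hV.1 n k B B' h.1 h'.1 (h.2.trans h'.2.symm)).2,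
    fun a b ha hb => ?_⟩
  have hb' : 0 < k * b - 2 * a := by linarith
  obtain ⟨h1, h2⟩ := fujita_spec (n := n) hk ha hb'
  obtain ⟨C, hC⟩ := hF n k a b (fujita n k a b) (by omega) ha hb' h1 h2
  refine ⟨C, fun T hT => ?_⟩
  obtain ⟨hf, hc⟩ := hC T hT
  set S := {p : Pool.Agent.U115.WM.QPt n k | ∃ (B : Matrix (Fin n) (Fin k) ℤ) (h : ℝ),
      Pool.Agent.U115.WM.Inj B ∧ Pool.Agent.U115.WM.lat B = p.Λ ∧ 0 < h ∧
      (∀ v ∈ p.Λ, |(p.f v : ℝ)| ≤ h * ∑ l, (v l : ℝ) ^ 2) ∧
      h ^ a * Pool.Agent.U115.WM.cov B ^ b ≤ T} with hS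
  have hsub : Points n k a b T ⊆ (fun p : Pool.Agent.U115.WM.QPt n k => (p.Λ, p.f)) '' S := by
    rintro ⟨Λ, f⟩ ⟨⟨h1, h2, B, c, hB, hc1, hc2, hc3, hc4⟩, B', h, hB', hh, hT'⟩
    refine ⟨⟨Λ, f, B, c, hB.1, hB.2, h1, ⟨hc1, hc2, fun v hv => h2 v ?_⟩, hc3, hc4⟩,
      ⟨B', h, hB'.1, hB'.2, hh.1, hh.2, hT'⟩, rfl⟩
    have : Pool.Agent.U115.WM.lat B = Λ := hB.2
    rwa [← this]
  have hfi := hf.image (fun p : Pool.Agent.U115.WM.QPt n k => (p.Λ, p.f))
  refine ⟨hfi.subset hsub, ?_⟩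
  calc ((Points n k a b T).ncard : ℝ) ≤
      (((fun p : Pool.Agent.U115.WM.QPt n k => (p.Λ, p.f)) '' S).ncard : ℝ) := by
        exact_mod_cast Set.ncard_le_ncard hsub hfi
    _ ≤ (S.ncard : ℝ) := by exact_mod_cast Set.ncard_image_le hf
    _ ≤ _ := hc

end Pool.Agent.Results.MP_18ea5f_nt.QuadricsInSubspaces
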